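import Pool.Agent.Y314.FM.Cpl3

set_option autoImplicit false

open MeasureTheory

noncomputable section

namespace Pool.Agent.Y314.FM

open Pool.Agent.Y451.FM

/-- total probability for three variables -/
theorem sum3 {Ω L C U : Type} [MeasurableSpace Ω] [Fintype L] [Fintype C] [Fintype U]
    (μ : Measure Ω) [IsFiniteMeasure μ] (dgt : Ω → C) (zz : Ω → L) (uu : Ω → U)
    (hd : ∀ c, MeasurableSet {b | dgt b = c}) (hz : ∀ z, MeasurableSet {b | zz b = z})
    (hu : ∀ u, MeasurableSet {b | uu b = u}) (A : C → U → Prop) [∀ c u, Decidable (A c u)] :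
    ∑ l, ∑ c, ∑ u, (if A c u then 0 else μ.real {b | dgt b = c ∧ zz b = l ∧ uu b = u}) =
      μ.real {b | ¬ A (dgt b) (uu b)} := by
  have h1 := sum_if μ (fun b => (zz b, dgt b, uu b)) (by
    rintro ⟨l, c, u⟩
    have : {b | (zz b, dgt b, uu b) = (l, c, u)} = {b | zz b = l} ∩ ({b | dgt b = c} ∩ {b | uu b = u}) := by
      ext b
      simp only [Prod.mk.injEq, Set.mem_ofPred_eq, Set.mem_inter_iff]
    rw [this]
    exact (hz l).inter ((hd c).inter (hu u))) Set.univ (fun p => ¬ A p.2.1 p.2.2)
  have h2 : μ.real {b | b ∈ Set.univ ∧ ¬ A (dgt b) (uu b)} = μ.real {b | ¬ A (dgt b) (uu b)} := by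
    congr 1
    ext b
    simp
  simp only at h1
  rw [← h2, ← h1, Fintype.sum_prod_type]
  refine Finset.sum_congr rfl fun l _ => ?_
  rw [Fintype.sum_prod_type]
  refine Finset.sum_congr rfl fun c _ => Finset.sum_congr rfl fun u _ => ?_
  simp only
  by_cases h : A c u
  · rw [if_pos h, if_neg (by simpa using h)]
  · rw [if_neg h, if_pos h]
    congr 1
    ext b
    simp only [Prod.mk.injEq, Set.mem_ofPred_eq, Set.mem_univ, true_and]
    tauto

/-- extension of a pattern -/
def extP {n k : ℕ} (A : Finset (Gp n)) (d : Fin k) (z : Pat n k A) : Gp n → Fin k :=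
  fun w => if h : w ∈ A then z ⟨w, h⟩ else d

theorem extP_rs {n k : ℕ} (A : Finset (Gp n)) (d : Fin k) (w : Gp n → Fin k) {v : Gp n}
    (h : v ∈ A) : extP A d (rs A w) v = w v := by
  unfold extP rs
  rw [dif_pos h]

theorem reord {L C U : Type} [Fintype L] [Fintype C] [Fintype U] (f : L → C → C → U → ℝ) :
    ∑ l, ∑ c', ∑ u, ∑ c, f l c c' u = ∑ l, ∑ c, ∑ c', ∑ u, f l c c' u := by
  refine Finset.sum_congr rfl fun l _ => ?_
  have h1 : ∀ c', ∑ u, ∑ c, f l c c' u = ∑ c, ∑ u, f l c c' u := fun c' => Finset.sum_comm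
  simp_rw [h1]
  exact Finset.sum_comm

/-- comparison of the two frozen configurations -/
theorem kap_bound {L C U I : Type} [Fintype L] [Fintype C] [Fintype U]
    (κ : L → C → C → U → ℝ) (h0 : ∀ l c c' u, 0 ≤ κ l c c' u) (Q : Finset I)
    (A : C → U → Prop) [∀ c u, Decidable (A c u)] (D : I → C → C → Prop)
    [∀ i c c', Decidable (D i c c')]
    (hAD : ∀ c c' u, A c u → (∀ i ∈ Q, D i c c') → A c' u) :
    ∑ l, ∑ c', ∑ u, (if A c' u then 0 else ∑ c, κ l c c' u) ≤
      ∑ l, ∑ c, ∑ u, (if A c u then 0 else ∑ c', κ l c c' u) +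
        ∑ i ∈ Q, ∑ l, ∑ c, ∑ c', ∑ u, (if D i c c' then 0 else κ l c c' u) := by
  have e1 : ∑ l, ∑ c', ∑ u, (if A c' u then 0 else ∑ c, κ l c c' u) =
      ∑ l, ∑ c, ∑ c', ∑ u, (if A c' u then 0 else κ l c c' u) := by
    rw [← reord]
    refine Finset.sum_congr rfl fun l _ => Finset.sum_congr rfl fun c' _ =>
      Finset.sum_congr rfl fun u _ => ?_
    split_ifs <;> simp
  have e2 : ∑ l, ∑ c, ∑ u, (if A c u then 0 else ∑ c', κ l c c' u) =
      ∑ l, ∑ c, ∑ c', ∑ u, (if A c u then 0 else κ l c c' u) := by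
    refine Finset.sum_congr rfl fun l _ => Finset.sum_congr rfl fun c _ => ?_
    rw [Finset.sum_comm]
    refine Finset.sum_congr rfl fun u _ => ?_
    split_ifs <;> simp
  have e3 : ∑ i ∈ Q, ∑ l, ∑ c, ∑ c', ∑ u, (if D i c c' then 0 else κ l c c' u) =
      ∑ l, ∑ c, ∑ c', ∑ u, ∑ i ∈ Q, (if D i c c' then 0 else κ l c c' u) := by
    rw [Finset.sum_comm]
    refine Finset.sum_congr rfl fun l _ => ?_
    rw [Finset.sum_comm]
    refine Finset.sum_congr rfl fun c _ => ?_
    rw [Finset.sum_comm]
    refine Finset.sum_congr rfl fun c' _ => ?_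
    rw [Finset.sum_comm]
  rw [e1, e2, e3]
  simp only [← Finset.sum_add_distrib]
  refine Finset.sum_le_sum fun l _ => Finset.sum_le_sum fun c _ => Finset.sum_le_sum fun c' _ =>
    Finset.sum_le_sum fun u _ => ?_
  have e4 : ∀ i ∈ Q, 0 ≤ (if D i c c' then 0 else κ l c c' u) := by
    intro i _
    split_ifs
    · exact le_refl _
    · exact h0 _ _ _ _
  have e5 := Finset.sum_nonneg e4
  by_cases h1 : A c' u
  · rw [if_pos h1]
    split_ifs
    · linarith
    · have := h0 l c c' u
      linarith
  · rw [if_neg h1]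
    by_cases h2 : A c u
    · rw [if_pos h2, zero_add]
      have h3 : ∃ i ∈ Q, ¬ D i c c' := by
        by_contra hc
        push Not at hc
        exact h1 (hAD c c' u h2 hc)
      obtain ⟨i, hi, hi2⟩ := h3
      have := Finset.single_le_sum e4 hi
      rw [if_neg hi2] at this
      exact this
    · rw [if_neg h2]
      linarith

/-- the coupling of one box -/
theorem done (hC : S_COU) (hE : S_ENT) (hA : S_APX) (hP : S_PRD) (hS : S_ASY) : S_CPL := by
  classical
  intro n k ρ F hF t ε hε
  have h0mem : ∀ s : ℕ, (0 : Gp n) ∈ B n s := by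
    intro s
    rw [mem_B]
    intro i
    simp
  have hBt : 0 < ((B n t).card : ℝ) := by
    exact_mod_cast Finset.card_pos.2 ⟨0, h0mem t⟩
  obtain ⟨r, Fr, hFr, hη⟩ := hA n k F hF (ε / 4 / (B n t).card) (by positivity)
  have hη1 : ((B n t).card : ℝ) * (ε / 4 / (B n t).card) ≤ ε / 4 := by
    apply le_of_eq
    field_simp
  have hη0 : 0 ≤ ε / 4 / ((B n t).card : ℝ) := by positivity
  have hk0 : 0 ≤ Real.log k := Real.log_natCast_nonneg k
  generalize (ε / 4 / ((B n t).card : ℝ)) = η at hη hη1 hη0
  obtain ⟨N₀, hN₀⟩ := choose_N hS n ρ t r (Real.log k) hk0 ε hε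
  refine ⟨N₀, fun N hN => ?_⟩
  obtain ⟨hN1, hN2, hN3, hN4⟩ := hN₀ N hN
  -- measurability
  have hdg := hP.1 r
  have hdm : ∀ c : Fin (B n N).card → Fin (2 ^ r + 1),
      MeasurableSet {b : Om n | (fun i => dg r (b (en (B n N) i))) = c} := by
    intro c
    have h1 : Measurable (fun b : Om n => fun i => dg r (b (en (B n N) i))) :=
      measurable_pi_lambda _ fun i => hdg.comp (measurable_pi_apply _)
    exact h1 (measurableSet_singleton c)
  have hsg : ∀ v : Gp n, Measurable fun b : Om n => sg F b v := by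
    intro v
    exact hF.comp (hP.2.1 n v).measurable
  have hzm : ∀ z : Pat n k (B n (N + t) \ B n (N - (2 * ρ + t))),
      MeasurableSet {b : Om n | rs (B n (N + t) \ B n (N - (2 * ρ + t))) (sg F b) = z} := by
    intro z
    have h1 : Measurable (fun b : Om n =>
        rs (B n (N + t) \ B n (N - (2 * ρ + t))) (sg F b)) :=
      measurable_pi_lambda _ fun v => hsg v.1
    exact h1 (measurableSet_singleton z)
  have htb : ∀ (T : Gp n → Rule n k t) (v : Gp n), Measurable fun b : Om n => tb T (sg F b) v := by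
    intro T v
    have h1 : Measurable (fun b : Om n => fun u : {u : Gp n // u ∈ B n t} =>
        sh v (sg F b) u.1) := measurable_pi_lambda _ fun u => hsg _
    exact (measurable_of_countable (T v)).comp h1
  have hlaw : ∀ c : Fin (B n N).card → Fin (2 ^ r + 1),
      (PP n).real {b | (fun i => dg r (b (en (B n N) i))) = c} =
        ∏ i, (volume : Measure unitInterval).real {x | dg r x = c i} := by
    intro c
    rw [← hP.2.2 n r (B n N).card (en (B n N)) (en_inj _) c]
    congr 1
    ext b
    simp only [Set.mem_ofPred_eq]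
    exact funext_iff
  obtain ⟨g, hg0, hg1, hg2⟩ := cou_prob hC hE (PP n) (B n N).card (Fin (2 ^ r + 1))
    (Pat n k (B n (N + t) \ B n (N - (2 * ρ + t))))
    (fun _ s => (volume : Measure unitInterval).real {x | dg r x = s})
    (fun _ s => measureReal_nonneg) (fun _ => by
      have := sum_real (volume : Measure unitInterval) (dg r)
        (fun z => hdg (measurableSet_singleton z)) Set.univ
      simpa using this)
    (fun b i => dg r (b (en (B n N) i))) hdm
    (fun b => rs (B n (N + t) \ B n (N - (2 * ρ + t))) (sg F b)) hzm hlaw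
  have hcard : Real.log (Fintype.card (Pat n k (B n (N + t) \ B n (N - (2 * ρ + t))))) =
      ((B n (N + t) \ B n (N - (2 * ρ + t))).card : ℝ) * Real.log k := by
    have h1 : Fintype.card (Pat n k (B n (N + t) \ B n (N - (2 * ρ + t)))) =
        k ^ (B n (N + t) \ B n (N - (2 * ρ + t))).card := by
      rw [Fintype.card_fun, Fintype.card_fin, Fintype.card_coe]
    rw [h1]
    push_cast
    rw [Real.log_pow]
  rw [hcard] at hg1
  have hgg0 : ∀ v, 0 ≤ extc (B n N) 0 g v := by
    intro v
    by_cases h : v ∈ B n N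
    · rw [extc_of_mem _ _ _ h]; exact hg0 _
    · rw [extc_of_not_mem _ _ _ h]
  refine ⟨fun v => if v ∈ B n (N - (r + t)) then ((B n t).card : ℝ) * η +
      ∑ u ∈ B n (r + t), extc (B n N) 0 g (v + u) else 1, B n (N - (r + t)), ?_, ?_, ?_, ?_⟩
  · intro v
    have e2 : 0 ≤ ∑ u ∈ B n (r + t), extc (B n N) 0 g (v + u) :=
      Finset.sum_nonneg fun u _ => hgg0 _
    have e3 : 0 ≤ ((B n t).card : ℝ) * η := by positivity
    simp only
    split_ifs <;> linarith
  · exact eps_sum hN1 g hg0 _ 0 ε η hg1 hη0 le_rfl hη1 hN3 hε hN4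
  · intro v _ hv
    simp only
    rw [if_neg hv]
  intro T
  -- a default colour
  let d0 : Fin k := F (fun _ => 0)
  let hh : Pat n k (B n (N + t) \ B n (N - (2 * ρ + t))) → Pat n k (collar n ρ N) :=
    fun z => rs (collar n ρ N) (tb T (extP _ d0 z))
  have hhh : ∀ b : Om n, hh (rs (B n (N + t) \ B n (N - (2 * ρ + t))) (sg F b)) =
      rs (collar n ρ N) (tb T (sg F b)) := by
    intro b
    funext v
    have hv := v.2
    unfold collar at hv
    rw [Finset.mem_sdiff] at hv
    show tb T _ v.1 = tb T _ v.1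
    apply tb_congr
    intro u hu
    apply extP_rs
    rw [Finset.mem_sdiff]
    constructor
    · rw [add_comm u, ]
      exact B_add hv.1 hu
    · intro h1
      apply hv.2
      have h2 := B_add h1 (B_neg hu)
      have h3 : u + v.1 + -u = v.1 := by abel
      rw [h3] at h2
      have h4 : N - (2 * ρ + t) + t = N - 2 * ρ := by omega
      rw [h4] at h2
      exact h2
  obtain ⟨κ, k0, k1, k2, k3⟩ := hg2 (Pat n k (collar n ρ N)) (Pat n k (B n N)) hh
    (fun b => rs (B n N) (tb T (sg F b))) (by
      intro u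
      have h1 : Measurable (fun b : Om n => rs (B n N) (tb T (sg F b))) :=
        measurable_pi_lambda _ fun v => htb T v.1
      exact h1 (measurableSet_singleton u))
  simp only [hhh] at k1 k2
  have hPd : ∀ (b : Om n) (v : Gp n), v ∈ B n (N - (r + t)) →
      tb T (Gd Fr (extc (B n N) 0 (fun i => dg r (b (en (B n N) i))))) v =
        tb T (Gd Fr (dd r b)) v := by
    intro b v hv
    apply tb_Gd_congr Fr hFr
    intro u hu
    have h1 : v + u ∈ B n N := by
      have := B_add hv hu
      rwa [Nat.sub_add_cancel hN1] at this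
    exact extc_en (B n N) 0 (fun w => dg r (b w)) h1
  refine ⟨Fin (B n N).card → Fin (2 ^ r + 1), inferInstance,
    fun c => ∏ i, (volume : Measure unitInterval).real {x | dg r x = c i},
    fun c v => tb T (Gd Fr (extc (B n N) 0 c)) v, fun l c' u => ∑ c, κ l c c' u,
    ?_, ?_, ?_, ?_, ?_, ?_, ?_⟩
  · intro c
    exact Finset.prod_nonneg fun i _ => measureReal_nonneg
  · have h1 := sum_real (PP n) (fun b i => dg r (b (en (B n N) i))) hdm Set.univ
    have h2 : ∀ c : Fin (B n N).card → Fin (2 ^ r + 1),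
        {b : Om n | b ∈ Set.univ ∧ (fun i => dg r (b (en (B n N) i))) = c} =
          {b | (fun i => dg r (b (en (B n N) i))) = c} := by
      intro c
      ext b
      simp
    simp only [h2, hlaw] at h1
    rw [h1]
    simp
  · intro l c u
    exact Finset.sum_nonneg fun c' _ => k0 _ _ _ _
  · intro l c' u hne
    obtain ⟨c, _, hc⟩ := Finset.exists_ne_zero_of_sum_ne_zero hne
    have h1 : κ l c c' u ≤ ∑ c', κ l c c' u :=
      Finset.single_le_sum (f := fun c' => κ l c c' u) (fun c' _ => k0 l c c' u)
        (Finset.mem_univ c')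
    rw [k1] at h1
    have h2 : 0 < κ l c c' u := lt_of_le_of_ne (k0 _ _ _ _) (Ne.symm hc)
    refine lt_of_lt_of_le (h2.trans_le h1) (measureReal_mono ?_ (measure_ne_top _ _))
    rintro b ⟨_, hb2, hb3⟩
    exact ⟨hb2, hb3⟩
  · intro l c'
    rw [Finset.sum_comm]
    exact k2 l c'
  · intro v hv hvD
    simp only
    rw [if_pos hvD]
    have h1 := kap_bound κ k0 (B n (r + t))
      (fun c u => u ⟨v, hv⟩ = tb T (Gd Fr (extc (B n N) 0 c)) v)
      (fun w c c' => extc (B n N) 0 c (v + w) = extc (B n N) 0 c' (v + w)) (by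
        intro c c' u h2 h3
        rw [h2]
        apply tb_Gd_congr Fr hFr
        exact h3)
    refine h1.trans ?_
    refine add_le_add ?_ ?_
    · simp only [k1]
      rw [sum3 (PP n) (fun b i => dg r (b (en (B n N) i)))
        (fun b => rs (collar n ρ N) (tb T (sg F b))) (fun b => rs (B n N) (tb T (sg F b))) hdm
        (fun z => by
          have h1 : Measurable (fun b : Om n => rs (collar n ρ N) (tb T (sg F b))) :=
            measurable_pi_lambda _ fun v => htb T v.1
          exact h1 (measurableSet_singleton z))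
        (fun u => by
          have h1 : Measurable (fun b : Om n => rs (B n N) (tb T (sg F b))) :=
            measurable_pi_lambda _ fun v => htb T v.1
          exact h1 (measurableSet_singleton u))]
      refine le_trans ?_ (err_le hP F Fr η hη T v)
      apply measureReal_mono _ (measure_ne_top _ _)
      intro b hb
      simp only [Set.mem_ofPred_eq] at hb ⊢
      rw [hPd b v hvD] at hb
      exact hb
    · refine Finset.sum_le_sum fun w hw => ?_
      have h1 : v + w ∈ B n N := by
        have := B_add hvD hw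
        rwa [Nat.sub_add_cancel hN1] at this
      simp only [extc_of_mem (B n N) _ _ h1]
      exact k3 _
  · intro v hv hvD y
    simp only
    rw [if_pos hvD]
    have h1 := sum_if (PP n) (fun b i => dg r (b (en (B n N) i))) hdm Set.univ
      (fun c => ¬ (tb T (Gd Fr (extc (B n N) 0 c)) v = y))
    have h2 : ∀ c : Fin (B n N).card → Fin (2 ^ r + 1),
        {b : Om n | b ∈ Set.univ ∧ (fun i => dg r (b (en (B n N) i))) = c} =
          {b | (fun i => dg r (b (en (B n N) i))) = c} := by
      intro c
      ext b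
      simp
    simp only [h2, hlaw] at h1
    have h3 : ∀ c : Fin (B n N).card → Fin (2 ^ r + 1),
        (∏ i, (volume : Measure unitInterval).real {x | dg r x = c i}) *
          (if tb T (Gd Fr (extc (B n N) 0 c)) v = y then (0 : ℝ) else 1) =
        if ¬ (tb T (Gd Fr (extc (B n N) 0 c)) v = y) then
          ∏ i, (volume : Measure unitInterval).real {x | dg r x = c i} else 0 := by
      intro c
      split_ifs <;> simp_all
    simp only [h3]
    rw [h1]
    have h4 : (PP n).real {b : Om n | b ∈ Set.univ ∧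
        ¬ tb T (Gd Fr (extc (B n N) 0 fun i => dg r (b (en (B n N) i)))) v = y} ≤
        (PP n).real {b | tb T (sg F b) v ≠ y} +
          (PP n).real {b | tb T (sg F b) v ≠ tb T (Gd Fr (dd r b)) v} := by
      refine le_trans (measureReal_mono ?_ (measure_ne_top _ _)) (measureReal_union_le _ _)
      intro b hb
      simp only [Set.mem_ofPred_eq, Set.mem_univ, true_and] at hb
      rw [hPd b v hvD] at hb
      by_cases h5 : tb T (sg F b) v = y
      · right
        simp only [Set.mem_ofPred_eq]
        rw [h5]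
        exact fun h6 => hb h6.symm
      · left
        exact h5
    have h5 := err_le hP F Fr η hη T v
    have e2 : 0 ≤ ∑ u ∈ B n (r + t), extc (B n N) 0 g (v + u) :=
      Finset.sum_nonneg fun u _ => hgg0 _
    linarith

end Pool.Agent.Y314.FM

end
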