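import Pool.Agent.Y451.FM.Stm

set_option autoImplicit false

open MeasureTheory

noncomputable section

namespace Pool.Agent.Y314.FM

open Pool.Agent.Y451.FM

/-- total probability -/
theorem sum_real {Ω K : Type} [MeasurableSpace Ω] [Fintype K] (μ : Measure Ω) [IsFiniteMeasure μ]
    (zz : Ω → K) (hz : ∀ z, MeasurableSet {b | zz b = z}) (s : Set Ω) :
    ∑ z, μ.real {b | b ∈ s ∧ zz b = z} = μ.real s := by
  classical
  have h1 : ∀ z, μ.real {b | b ∈ s ∧ zz b = z} = (μ.restrict s).real (zz ⁻¹' {z}) := by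
    intro z
    rw [measureReal_def, measureReal_def]
    congr 1
    have hm : MeasurableSet (zz ⁻¹' {z}) := hz z
    rw [Measure.restrict_apply hm]
    congr 1
    ext b
    simp [and_comm]
  simp_rw [h1]
  rw [sum_measureReal_preimage_singleton (μ := μ.restrict s) Finset.univ (fun y _ => hz y)]
  simp [measureReal_def]

/-- sums of probabilities with a selector -/
theorem sum_if {Ω K : Type} [MeasurableSpace Ω] [Fintype K] (μ : Measure Ω) [IsFiniteMeasure μ]
    (zz : Ω → K) (hz : ∀ z, MeasurableSet {b | zz b = z}) (s : Set Ω) (A : K → Prop)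
    [DecidablePred A] :
    ∑ z, (if A z then μ.real {b | b ∈ s ∧ zz b = z} else 0) = μ.real {b | b ∈ s ∧ A (zz b)} := by
  rw [← sum_real μ zz hz {b | b ∈ s ∧ A (zz b)}]
  refine Finset.sum_congr rfl fun z _ => ?_
  by_cases h : A z
  · rw [if_pos h]
    congr 1
    ext b
    simp only [Set.mem_ofPred_eq]
    constructor
    · rintro ⟨h1, h2⟩
      exact ⟨⟨h1, by rw [h2]; exact h⟩, h2⟩
    · rintro ⟨⟨h1, _⟩, h2⟩
      exact ⟨h1, h2⟩
  · rw [if_neg h]
    symm
    have : {b | b ∈ {b | b ∈ s ∧ A (zz b)} ∧ zz b = z} = ∅ := by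
      ext b
      simp only [Set.mem_ofPred_eq, Set.mem_empty_iff_false, iff_false]
      rintro ⟨⟨_, h1⟩, h2⟩
      rw [h2] at h1
      exact h h1
    rw [this]
    simp

/-- the coupling lemma for random variables -/
theorem cou_prob (hC : S_COU) (hE : S_ENT) {Ω : Type} [MeasurableSpace Ω] (μ : Measure Ω)
    [IsProbabilityMeasure μ] (m : ℕ) (S K : Type) [Fintype S] [Fintype K] [DecidableEq S]
    (q : Fin m → S → ℝ) (hq0 : ∀ i s, 0 ≤ q i s) (hq1 : ∀ i, ∑ s, q i s = 1)
    (dgt : Ω → Fin m → S) (hd : ∀ c, MeasurableSet {b | dgt b = c})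
    (zz : Ω → K) (hz : ∀ z, MeasurableSet {b | zz b = z})
    (hlaw : ∀ c, μ.real {b | dgt b = c} = ∏ i, q i (c i)) :
    ∃ g : Fin m → ℝ, (∀ i, 0 ≤ g i) ∧ ∑ i, g i ^ 2 ≤ Real.log (Fintype.card K) ∧
      ∀ (L U : Type) [Fintype L] [Fintype U] [DecidableEq L] (h : K → L) (uu : Ω → U),
        (∀ u, MeasurableSet {b | uu b = u}) →
        ∃ κ : L → (Fin m → S) → (Fin m → S) → U → ℝ, (∀ l c c' u, 0 ≤ κ l c c' u) ∧
          (∀ l c u, ∑ c', κ l c c' u = μ.real {b | dgt b = c ∧ h (zz b) = l ∧ uu b = u}) ∧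
          (∀ l c', ∑ c, ∑ u, κ l c c' u = μ.real {b | h (zz b) = l} * ∏ i, q i (c' i)) ∧
          ∀ i, ∑ l, ∑ c, ∑ c', ∑ u, (if c i = c' i then 0 else κ l c c' u) ≤ g i := by
  classical
  obtain ⟨g, hg0, hg1, hg2⟩ := hC m S K q (fun c z => μ.real {b | dgt b = c ∧ zz b = z}) hq0 hq1
    (fun c z => measureReal_nonneg) (fun c => by
      rw [← hlaw c, ← sum_real μ zz hz {b | dgt b = c}]
      rfl)
  refine ⟨g, hg0, hg1.trans ?_, ?_⟩
  · refine (hE K _ ?_ ?_).2
    · intro z
      exact Finset.sum_nonneg fun c _ => measureReal_nonneg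
    · rw [Finset.sum_comm]
      have h1 : ∀ c, ∑ z, μ.real {b | dgt b = c ∧ zz b = z} = μ.real {b | b ∈ Set.univ ∧ dgt b = c} := by
        intro c
        refine (sum_real μ zz hz {b | dgt b = c}).trans ?_
        simp
      simp_rw [h1]
      rw [sum_real μ dgt hd Set.univ]
      simp
  · intro L U _ _ _ h uu hu
    obtain ⟨κ, h0, h1, h2, h3⟩ := hg2 L U h
      (fun c z u => μ.real {b | (dgt b = c ∧ zz b = z) ∧ uu b = u})
      (fun c z u => measureReal_nonneg) (fun c z => by
        exact sum_real μ uu hu {b | dgt b = c ∧ zz b = z})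
    refine ⟨κ, h0, ?_, ?_, h3⟩
    · intro l c u
      rw [h1 l c u]
      have h4 := sum_if μ zz hz {b | dgt b = c ∧ uu b = u} (fun z => h z = l)
      have h5 : ∀ z, {b | (dgt b = c ∧ zz b = z) ∧ uu b = u} =
          {b | b ∈ {b | dgt b = c ∧ uu b = u} ∧ zz b = z} := by
        intro z
        ext b
        simp only [Set.mem_ofPred_eq]
        tauto
      simp_rw [h5]
      rw [h4]
      congr 1
      ext b
      simp only [Set.mem_ofPred_eq]
      tauto
    · intro l c'
      rw [h2 l c']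
      congr 1
      have h4 : ∀ c, (∑ z, if h z = l then μ.real {b | dgt b = c ∧ zz b = z} else 0) =
          μ.real {b | b ∈ {b | h (zz b) = l} ∧ dgt b = c} := by
        intro c
        have h5 := sum_if μ zz hz {b | dgt b = c} (fun z => h z = l)
        simp only [Set.mem_ofPred_eq] at h5
        rw [h5]
        congr 1
        ext b
        simp only [Set.mem_ofPred_eq]
        tauto
      simp_rw [h4]
      exact sum_real μ dgt hd {b | h (zz b) = l}

end Pool.Agent.Y314.FM

end
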