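import Pool.Agent.Y314.FM.Cpl1

set_option autoImplicit false

open MeasureTheory

noncomputable section

namespace Pool.Agent.Y314.FM

open Pool.Agent.Y451.FM

theorem B_add {n r t : ℕ} {a b : Gp n} (ha : a ∈ B n r) (hb : b ∈ B n t) : a + b ∈ B n (r + t) := by
  rw [mem_B] at *
  intro i
  have h1 := ha i
  have h2 := hb i
  have h3 := abs_add_le (a i) (b i)
  simp only [Pi.add_apply]
  push_cast
  linarith

theorem B_neg {n r : ℕ} {a : Gp n} (ha : a ∈ B n r) : -a ∈ B n r := by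
  rw [mem_B] at *
  intro i
  simpa using ha i

theorem B_mono {n r s : ℕ} (h : r ≤ s) : B n r ⊆ B n s := by
  intro a ha
  rw [mem_B] at *
  intro i
  exact (ha i).trans (by exact_mod_cast h)

/-- configuration from digits -/
def Gd {n k r : ℕ} (Fr : (Gp n → Fin (2 ^ r + 1)) → Fin k) (d : Gp n → Fin (2 ^ r + 1)) :
    Gp n → Fin k := fun w => Fr (sh w d)

/-- the digits -/
def dd {n : ℕ} (r : ℕ) (b : Om n) : Gp n → Fin (2 ^ r + 1) := fun v => dg r (b v)

theorem tb_congr {n k t : ℕ} (T : Gp n → Rule n k t) (w w' : Gp n → Fin k) (v : Gp n)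
    (h : ∀ u ∈ B n t, w (u + v) = w' (u + v)) : tb T w v = tb T w' v := by
  unfold tb ev sh
  congr 1
  funext u
  exact h u.1 u.2

theorem tb_Gd_congr {n k r t : ℕ} (Fr : (Gp n → Fin (2 ^ r + 1)) → Fin k)
    (hFr : ∀ c c' : Gp n → Fin (2 ^ r + 1), (∀ v ∈ B n r, c v = c' v) → Fr c = Fr c')
    (T : Gp n → Rule n k t) (d d' : Gp n → Fin (2 ^ r + 1)) (v : Gp n)
    (h : ∀ u ∈ B n (r + t), d (v + u) = d' (v + u)) : tb T (Gd Fr d) v = tb T (Gd Fr d') v := by
  apply tb_congr
  intro u hu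
  unfold Gd
  apply hFr
  intro s hs
  unfold sh
  have := h (s + u) (B_add hs hu)
  rw [show s + (u + v) = v + (s + u) by abel]
  exact this

theorem err_le {n k r t : ℕ} (hP : S_PRD) (F : Om n → Fin k)
    (Fr : (Gp n → Fin (2 ^ r + 1)) → Fin k) (η : ℝ)
    (hη : (PP n).real {b | F b ≠ Fr (fun v => dg r (b v))} ≤ η) (T : Gp n → Rule n k t)
    (v : Gp n) :
    (PP n).real {b | tb T (sg F b) v ≠ tb T (Gd Fr (dd r b)) v} ≤ ((B n t).card : ℝ) * η := by
  have h1 : {b | tb T (sg F b) v ≠ tb T (Gd Fr (dd r b)) v} ⊆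
      ⋃ u ∈ B n t, (sh (u + v)) ⁻¹' {b | F b ≠ Fr (fun v => dg r (b v))} := by
    intro b hb
    simp only [Set.mem_iUnion]
    by_contra hc
    push Not at hc
    apply hb
    apply tb_congr
    intro u hu
    have := hc u hu
    simp only [Set.mem_preimage, Set.mem_ofPred_eq, not_not] at this
    exact this
  calc (PP n).real {b | tb T (sg F b) v ≠ tb T (Gd Fr (dd r b)) v}
      ≤ (PP n).real (⋃ u ∈ B n t, (sh (u + v)) ⁻¹' {b | F b ≠ Fr (fun v => dg r (b v))}) :=
        measureReal_mono h1 (measure_ne_top _ _)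
    _ ≤ ∑ u ∈ B n t, (PP n).real ((sh (u + v)) ⁻¹' {b | F b ≠ Fr (fun v => dg r (b v))}) :=
        measureReal_biUnion_finset_le _ _
    _ ≤ ∑ u ∈ B n t, η := by
        refine Finset.sum_le_sum fun u _ => ?_
        refine le_trans ?_ hη
        have h2 := hP.2.1 n (u + v)
        have h3 := Measure.le_map_apply (μ := PP n) h2.measurable.aemeasurable
          {b | F b ≠ Fr (fun v => dg r (b v))}
        rw [h2.map_eq] at h3
        exact ENNReal.toReal_mono (measure_ne_top _ _) h3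
    _ = ((B n t).card : ℝ) * η := by rw [Finset.sum_const, nsmul_eq_mul]

/-- sums of shifts of a nonnegative function supported on a finite set -/
theorem sum_shift_le {n : ℕ} (E : Finset (Gp n)) (gg : Gp n → ℝ) (h0 : ∀ v, 0 ≤ gg v)
    (h1 : ∀ v, v ∉ E → gg v = 0) (u : Gp n) : ∑ v ∈ E, gg (v + u) ≤ ∑ v ∈ E, gg v := by
  classical
  have h2 : ∑ v ∈ E, gg (v + u) = ∑ w ∈ E.image (fun v => v + u), gg w := by
    rw [Finset.sum_image]
    intro a _ b _ hab
    exact add_right_cancel hab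
  rw [h2]
  have h3 : ∑ w ∈ E.image (fun v => v + u), gg w = ∑ w ∈ (E.image (fun v => v + u)) ∩ E, gg w := by
    symm
    apply Finset.sum_subset Finset.inter_subset_left
    intro x hx hx2
    apply h1
    intro hx3
    exact hx2 (Finset.mem_inter.2 ⟨hx, hx3⟩)
  rw [h3]
  exact Finset.sum_le_sum_of_subset_of_nonneg Finset.inter_subset_right (fun x _ _ => h0 x)

end Pool.Agent.Y314.FM

end
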