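import Pool.Agent.Y314.FM.Cpl2

set_option autoImplicit false

open MeasureTheory

noncomputable section

namespace Pool.Agent.Y314.FM

open Pool.Agent.Y451.FM

/-- extension of a vector indexed by the points of a finite set -/
def extc {n : ℕ} {α : Type} (E : Finset (Gp n)) (d : α) (c : Fin E.card → α) : Gp n → α :=
  fun w => if h : w ∈ E then c (E.equivFin ⟨w, h⟩) else d

theorem extc_of_mem {n : ℕ} {α : Type} (E : Finset (Gp n)) (d : α) (c : Fin E.card → α)
    {w : Gp n} (h : w ∈ E) : extc E d c w = c (E.equivFin ⟨w, h⟩) := by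
  unfold extc
  rw [dif_pos h]

theorem extc_of_not_mem {n : ℕ} {α : Type} (E : Finset (Gp n)) (d : α) (c : Fin E.card → α)
    {w : Gp n} (h : w ∉ E) : extc E d c w = d := by
  unfold extc
  rw [dif_neg h]

/-- enumeration -/
def en {n : ℕ} (E : Finset (Gp n)) (i : Fin E.card) : Gp n := (E.equivFin.symm i).1

theorem en_inj {n : ℕ} (E : Finset (Gp n)) : Function.Injective (en E) := by
  intro i j h
  unfold en at h
  exact E.equivFin.symm.injective (Subtype.ext h)

theorem extc_en {n : ℕ} {α : Type} (E : Finset (Gp n)) (d : α) (f : Gp n → α)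
    {w : Gp n} (h : w ∈ E) : extc E d (fun i => f (en E i)) w = f w := by
  rw [extc_of_mem E d _ h]
  unfold en
  rw [Equiv.symm_apply_apply]

theorem sum_extc {n : ℕ} (E : Finset (Gp n)) (c : Fin E.card → ℝ) (φ : ℝ → ℝ) :
    ∑ w ∈ E, φ (extc E 0 c w) = ∑ i, φ (c i) := by
  rw [← Finset.sum_coe_sort E]
  rw [← E.equivFin.sum_comp]
  refine Finset.sum_congr rfl fun w _ => ?_
  rw [extc_of_mem E 0 c w.2]

/-- the sum of the errors -/
theorem eps_sum {n r t N : ℕ} (hN : r + t ≤ N) (g : Fin (B n N).card → ℝ) (hg : ∀ i, 0 ≤ g i)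
    (a s ε η : ℝ) (ha : ∑ i, g i ^ 2 ≤ a) (hη : 0 ≤ η) (hs : 0 ≤ s)
    (hη' : ((B n t).card : ℝ) * η ≤ ε / 4)
    (h1 : ((B n (r + t)).card : ℝ) ^ 2 * (((B n N).card : ℝ) * a) ≤
      (ε / 4 * ((B n N).card : ℝ)) ^ 2) (hε : 0 < ε)
    (h2 : ((B n N \ B n (N - (r + t))).card : ℝ) ≤ ε / 4 * ((B n N).card : ℝ)) :
    ∑ v ∈ B n N, (if v ∈ B n (N - (r + t)) then ((B n t).card : ℝ) * η +
      ∑ u ∈ B n (r + t), extc (B n N) 0 g (v + u) else 1) ≤ ε * ((B n N).card : ℝ) := by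
  classical
  have hgg0 : ∀ v, 0 ≤ extc (B n N) 0 g v := by
    intro v
    by_cases h : v ∈ B n N
    · rw [extc_of_mem _ _ _ h]; exact hg _
    · rw [extc_of_not_mem _ _ _ h]
  have hgg1 : ∀ v, v ∉ B n N → extc (B n N) 0 g v = 0 := fun v h => extc_of_not_mem _ _ _ h
  have e1 : ∀ v ∈ B n N, (if v ∈ B n (N - (r + t)) then ((B n t).card : ℝ) * η +
      ∑ u ∈ B n (r + t), extc (B n N) 0 g (v + u) else 1) ≤
      ((B n t).card : ℝ) * η + ∑ u ∈ B n (r + t), extc (B n N) 0 g (v + u) +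
        (if v ∈ B n (N - (r + t)) then 0 else 1) := by
    intro v _
    have e2 : 0 ≤ ∑ u ∈ B n (r + t), extc (B n N) 0 g (v + u) :=
      Finset.sum_nonneg fun u _ => hgg0 _
    have e3 : 0 ≤ ((B n t).card : ℝ) * η := by positivity
    split_ifs <;> linarith
  refine (Finset.sum_le_sum e1).trans ?_
  rw [Finset.sum_add_distrib, Finset.sum_add_distrib, Finset.sum_const, nsmul_eq_mul]
  have e4 : ∑ v ∈ B n N, (if v ∈ B n (N - (r + t)) then (0 : ℝ) else 1) ≤
      ε / 4 * ((B n N).card : ℝ) := by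
    refine le_trans (le_of_eq ?_) h2
    have : ∀ v ∈ B n N, (if v ∈ B n (N - (r + t)) then (0 : ℝ) else 1) =
        if v ∉ B n (N - (r + t)) then (1 : ℝ) else 0 := by
      intro v _
      split_ifs <;> simp_all
    rw [Finset.sum_congr rfl this, ← Finset.sum_filter, Finset.sum_const, nsmul_eq_mul, mul_one]
    congr 2
    ext v
    simp
  have e5 : ∑ v ∈ B n N, ∑ u ∈ B n (r + t), extc (B n N) 0 g (v + u) ≤
      ε / 4 * ((B n N).card : ℝ) := by
    rw [Finset.sum_comm]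
    have e6 : ∑ u ∈ B n (r + t), ∑ v ∈ B n N, extc (B n N) 0 g (v + u) ≤
        ∑ u ∈ B n (r + t), ∑ v ∈ B n N, extc (B n N) 0 g v :=
      Finset.sum_le_sum fun u _ => sum_shift_le _ _ hgg0 hgg1 u
    refine e6.trans ?_
    rw [Finset.sum_const, nsmul_eq_mul]
    have e7 := sq_sum_le_card_mul_sum_sq (s := B n N) (f := extc (B n N) 0 g)
    have e8 := sum_extc (B n N) g (fun x => x ^ 2)
    rw [e8] at e7
    refine abs_le_of_sq_le_sq' ?_ (by positivity) |>.2
    rw [mul_pow]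
    refine le_trans ?_ h1
    refine mul_le_mul_of_nonneg_left ?_ (by positivity)
    exact e7.trans (mul_le_mul_of_nonneg_left ha (by positivity))
  have e9 : (0 : ℝ) ≤ ((B n N).card : ℝ) := by positivity
  nlinarith

/-- the size of the neighbourhood of the collar -/
theorem choose_N (hS : S_ASY) (n ρ t r : ℕ) (k : ℝ) (hk : 0 ≤ k) (ε : ℝ) (hε : 0 < ε) :
    ∃ N₀ : ℕ, ∀ N ≥ N₀, r + t ≤ N ∧ 2 * ρ + t ≤ N ∧
      ((B n (r + t)).card : ℝ) ^ 2 * (((B n N).card : ℝ) *
        (((B n (N + t) \ B n (N - (2 * ρ + t))).card : ℝ) * k)) ≤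
        (ε / 4 * ((B n N).card : ℝ)) ^ 2 ∧
      ((B n N \ B n (N - (r + t))).card : ℝ) ≤ ε / 4 * ((B n N).card : ℝ) := by
  classical
  set M : ℝ := ((B n (r + t)).card : ℝ) ^ 2 * (k + 1) + 1 with hM
  have hM0 : 0 < M := by positivity
  obtain ⟨N1, h1⟩ := hS n (2 * ρ + t) ((ε / 4) ^ 2 / M) (by positivity)
  obtain ⟨N2, h2⟩ := hS n (r + t) (ε / 4) (by positivity)
  refine ⟨max (max N1 N2) ((r + t) + (2 * ρ + t)), fun N hN => ?_⟩
  have hN1 : N1 ≤ N := (le_max_left _ _).trans ((le_max_left _ _).trans hN)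
  have hN2 : N2 ≤ N := (le_max_right _ _).trans ((le_max_left _ _).trans hN)
  have hN3 : (r + t) + (2 * ρ + t) ≤ N := (le_max_right _ _).trans hN
  refine ⟨by omega, by omega, ?_, ?_⟩
  · have h3 := h1 N hN1
    have h4 : ((B n (N + t) \ B n (N - (2 * ρ + t))).card : ℝ) ≤
        (ε / 4) ^ 2 / M * ((B n N).card : ℝ) := by
      refine le_trans ?_ h3
      exact_mod_cast Finset.card_le_card
        (Finset.sdiff_subset_sdiff (B_mono (by omega)) (le_refl _))
    set b : ℝ := ((B n (r + t)).card : ℝ)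
    set c : ℝ := ((B n N).card : ℝ)
    set x : ℝ := ((B n (N + t) \ B n (N - (2 * ρ + t))).card : ℝ)
    have hb : 0 ≤ b := by positivity
    have hc : 0 ≤ c := by positivity
    have h5 : b ^ 2 * (c * (x * k)) ≤ b ^ 2 * (c * (((ε / 4) ^ 2 / M * c) * k)) := by
      gcongr
    refine h5.trans ?_
    have h6 : b ^ 2 * (c * (((ε / 4) ^ 2 / M * c) * k)) = (ε / 4 * c) ^ 2 * (b ^ 2 * k / M) := by
      field_simp
    rw [h6]
    have h7 : b ^ 2 * k / M ≤ 1 := by
      rw [div_le_one hM0, hM]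
      nlinarith [sq_nonneg b]
    nlinarith [sq_nonneg (ε / 4 * c)]
  · refine le_trans ?_ (h2 N hN2)
    exact_mod_cast Finset.card_le_card
      (Finset.sdiff_subset_sdiff (B_mono (by omega)) (le_refl _))

end Pool.Agent.Y314.FM

end
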